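import Mathlib
import Pool.Agent.Lib.MP_1da757_ag.Final

/-!
# Orbifold fundamental groups of lc Fano surface pairs are not uniformly virtually abelian
-/

namespace Pool.Agent.Results.MP_1da757_ag.UnboundedIndex

open Pool.Agent.Lib.MP_1da757_ag

/-- For every `c` there is a two-dimensional log canonical Fano pair `(ℙ², Δ)` whose orbifold
fundamental group has no abelian subgroup of finite index at most `c`. -/
theorem result (c : ℕ) : ∃ P : PlanePair, P.IsLogCanonical ∧ P.IsFano ∧ Nonempty P.Compl ∧
    ∀ (u : P.Compl) (A : Subgroup (P.OrbifoldGroup u)),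
      (∀ x ∈ A, ∀ y ∈ A, x * y = y * x) → A.index = 0 ∨ c < A.index :=
  main c

end Pool.Agent.Results.MP_1da757_ag.UnboundedIndex
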